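import Mathlib

set_option autoImplicit false

namespace Pool.Agent.Results.MP_4e92f2_gt.Coarser

open Set Filter Topology

/-- The three points that are identified. -/
def A : Set EReal := {⊥, 0, ⊤}

/-- The relation identifying the points of `A`. -/
def rel : Setoid EReal where
  r x y := x = y ∨ (x ∈ A ∧ y ∈ A)
  iseqv := ⟨fun _ => Or.inl rfl, fun h => h.imp Eq.symm And.symm, by
    rintro x y z (rfl | h) (rfl | h')
    exacts [Or.inl rfl, Or.inr h', Or.inr h, Or.inr ⟨h.1, h'.2⟩]⟩

/-- The quotient set. -/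
def X0 : Type := Quotient rel

/-- The projection. -/
def q (x : EReal) : X0 := Quotient.mk rel x

/-- The topology `τ`. -/
def tau : TopologicalSpace X0 where
  IsOpen U := IsOpen (q ⁻¹' U) ∧ (q 0 ∈ U → Dense (q ⁻¹' U))
  isOpen_univ := ⟨isOpen_univ, fun _ => dense_univ⟩
  isOpen_inter := fun _ _ hs ht => ⟨hs.1.inter ht.1, fun h =>
    (hs.2 h.1).inter_of_isOpen_left (ht.2 h.2) hs.1⟩
  isOpen_sUnion := fun S hS => ⟨by
    rw [preimage_sUnion]; exact isOpen_biUnion fun U hU => (hS U hU).1,
    fun ⟨U, hU, h⟩ => ((hS U hU).2 h).mono (preimage_mono (subset_sUnion_of_mem hU))⟩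

/-- Every convergent sequence has exactly one limit. -/
def US {X : Type} (t : TopologicalSpace X) : Prop :=
  ∀ (x : ℕ → X) (a b : X), Tendsto x atTop (@nhds X t a) → Tendsto x atTop (@nhds X t b) → a = b

def tau' : TopologicalSpace X0 where
  IsOpen U := IsOpen (q ⁻¹' U) ∧ (q 0 ∈ U → (q ⁻¹' U)ᶜ.Countable)
  isOpen_univ := ⟨isOpen_univ, fun _ => by simp⟩
  isOpen_inter := fun _ _ hs ht => ⟨hs.1.inter ht.1, fun h => by
    rw [preimage_inter, compl_inter]; exact (hs.2 h.1).union (ht.2 h.2)⟩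
  isOpen_sUnion := fun S hS => ⟨by
    rw [preimage_sUnion]; exact isOpen_biUnion fun U hU => (hS U hU).1,
    fun ⟨U, hU, h⟩ => ((hS U hU).2 h).mono
      (compl_subset_compl.2 (preimage_mono (subset_sUnion_of_mem hU)))⟩

lemma q_eq {x y : EReal} : q x = q y ↔ x = y ∨ (x ∈ A ∧ y ∈ A) := Quotient.eq

lemma pre {S : Set EReal} (h : Disjoint S A) : q ⁻¹' (q '' S) = S := by
  refine Subset.antisymm ?_ (subset_preimage_image _ _)
  rintro x ⟨y, hy, e⟩
  rcases q_eq.1 e with rfl | e
  · exact hy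
  · exact absurd e.1 (disjoint_left.1 h hy)

lemma h0 : (0 : EReal) ∈ A := by simp [A]

lemma star {S : Set EReal} (h : Disjoint S A) : q 0 ∉ q '' S := fun h' =>
  disjoint_left.1 h (show (0 : EReal) ∈ S from pre h ▸ h') h0

lemma cA : IsClosed A := (toFinite ({⊥, 0, ⊤} : Set EReal)).isClosed

lemma EReal.denseRange_coe' : DenseRange fun x : ℝ => (x : EReal) :=
  EReal.denseRange_ratCast.mono (by rintro _ ⟨x, rfl⟩; exact ⟨x, rfl⟩)

lemma dense_of {S : Set EReal} (h : Sᶜ.Countable) : Dense S := by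
  have : Dense ((fun x : ℝ => (x : EReal)) ⁻¹' Sᶜ)ᶜ :=
    (h.preimage EReal.coe_injective).dense_compl ℝ
  exact (EReal.denseRange_coe'.dense_image continuous_coe_real_ereal this).mono (by
    rintro _ ⟨x, hx, rfl⟩; exact not_not.1 hx)

lemma lim {x : ℕ → X0} {a : EReal} (ha : a ∉ A) (h : Tendsto x atTop (@nhds _ tau' (q a))) :
    Tendsto (fun n => (x n).out) atTop (𝓝 a) := by
  letI := tau'
  rw [(nhds_basis_opens a).tendsto_right_iff]
  rintro W ⟨hW, ho⟩
  have hd : Disjoint (W \ A) A := disjoint_sdiff_left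
  have : IsOpen (q '' (W \ A)) := ⟨by rw [pre hd]; exact ho.sdiff cA, fun h => absurd h (star hd)⟩
  filter_upwards [h.eventually (this.mem_nhds ⟨a, ⟨hW, ha⟩, rfl⟩)] with n hn
  have : (x n).out ∈ q ⁻¹' (q '' (W \ A)) := by
    have e : q (x n).out = x n := Quotient.out_eq _
    rw [mem_preimage, e]
    exact hn
  exact (pre hd ▸ this).1

lemma nostar {x : ℕ → X0} {a : EReal} (ha : a ∉ A) (h : Tendsto x atTop (@nhds _ tau' (q a))) :
    ¬ Tendsto x atTop (@nhds _ tau' (q 0)) := by
  letI := tau'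
  intro h'
  have t := lim ha h
  obtain ⟨N, hN⟩ := eventually_atTop.1 (t.eventually (cA.isOpen_compl.mem_nhds ha))
  have t' := t.comp (tendsto_add_atTop_nat N)
  have hd : Disjoint (insert a (range ((fun n => (x n).out) ∘ fun n => n + N))) A := by
    rw [disjoint_left]
    rintro _ (rfl | ⟨n, rfl⟩)
    · exact ha
    · exact hN _ (Nat.le_add_left _ _)
  have : IsOpen (q '' insert a (range ((fun n => (x n).out) ∘ fun n => n + N)))ᶜ :=
    ⟨by rw [preimage_compl, pre hd]; exact t'.isCompact_insert_range.isClosed.isOpen_compl, fun _ => by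
      rw [preimage_compl, pre hd, compl_compl]; exact (countable_range _).insert _⟩
  obtain ⟨n, hn⟩ := ((h'.comp (tendsto_add_atTop_nat N)).eventually (this.mem_nhds (star hd))).exists
  exact hn ⟨_, Or.inr ⟨n, rfl⟩, Quotient.out_eq _⟩

lemma us : US tau' := by
  intro x a b ha hb
  obtain ⟨a, rfl⟩ : ∃ y, q y = a := Quotient.exists_rep a
  obtain ⟨b, rfl⟩ : ∃ y, q y = b := Quotient.exists_rep b
  by_cases h1 : a ∈ A <;> by_cases h2 : b ∈ A
  · exact q_eq.2 (Or.inr ⟨h1, h2⟩)
  · exact absurd (q_eq.2 (Or.inr ⟨h1, h0⟩) ▸ ha) (nostar h2 hb)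
  · exact absurd (q_eq.2 (Or.inr ⟨h2, h0⟩) ▸ hb) (nostar h1 ha)
  · rw [tendsto_nhds_unique (lim h1 ha) (lim h2 hb)]

theorem result : ∃ t : TopologicalSpace X0, @T1Space X0 t ∧ US t ∧
    (∀ U, IsOpen[t] U → IsOpen[tau] U) ∧ t ≠ tau := by
  refine ⟨tau', ?_, us, fun U hU => ⟨hU.1, fun h => dense_of (hU.2 h)⟩, fun e => ?_⟩
  · letI := tau'
    rw [t1Space_iff_specializes_imp_eq]
    intro a b h
    exact us (fun _ => a) a b tendsto_const_nhds (tendsto_const_nhds.mono_right h)
  · let g : (ℕ → Bool) → EReal := fun s => ((cantorSetHomeomorphNatToBool.symm s).1 + 1 : ℝ)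
    have hg : Continuous g := continuous_coe_real_ereal.comp
      ((continuous_subtype_val.comp cantorSetHomeomorphNatToBool.symm.continuous).add continuous_const)
    have hi : Function.Injective g := fun s t h => cantorSetHomeomorphNatToBool.symm.injective
      (Subtype.ext (add_right_cancel (EReal.coe_injective h)))
    have hd : Disjoint (range g) A := by
      rw [disjoint_left]
      rintro _ ⟨s, rfl⟩ (h | h | h)
      · exact EReal.coe_ne_bot _ h
      · have := (cantorSet_subset_unitInterval (cantorSetHomeomorphNatToBool.symm s).2).1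
        have h' := EReal.coe_eq_zero.1 h
        linarith
      · exact EReal.coe_ne_top _ h
    have hc := (isCompact_range hg).isClosed
    have ho : IsOpen[tau] (q '' range g)ᶜ := by
      refine ⟨by rw [preimage_compl, pre hd]; exact hc.isOpen_compl, fun _ => ?_⟩
      rw [preimage_compl, pre hd, ← interior_eq_empty_iff_dense_compl]
      by_contra hh
      obtain ⟨a, ha⟩ := nonempty_iff_ne_empty.2 hh
      obtain ⟨l, u, -, h2, h3⟩ := exists_Icc_mem_subset_of_mem_nhds (mem_interior_iff_mem_nhds.1 ha)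
      have := ((hg.isClosedEmbedding hi).isEmbedding.isTotallyDisconnected_range.2 inferInstance) _ h3
        isPreconnected_Icc
      exact infinite_of_mem_nhds a h2 this.finite
    rw [← e] at ho
    have hcnt := ho.2 (star hd)
    rw [preimage_compl, pre hd, compl_compl] at hcnt
    haveI : Uncountable (ℕ → Bool) := by
      rw [← Cardinal.aleph0_lt_mk_iff]
      simp [Cardinal.aleph0_lt_continuum]
    exact not_countable (countable_univ_iff.1 ((hcnt.preimage hi).mono fun s _ => mem_preimage.2 (mem_range_self s)))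

end Pool.Agent.Results.MP_4e92f2_gt.Coarser
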